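import Pool.Agent.H84.LieReduction

/-!
# The equality problem for finite Lie rings is undecidable

Let `p` be a prime and let `C` be any class of Lie rings which contains every finite nilpotent
Lie ring `L` with `p L = 0`. Then the set of all quasi-identities which are true in every member
of `C` is not recursive. For `C` the class of all finite Lie rings this is the negative answer to
the question of the problem.

The proof encodes the computations of a fixed stack machine (Mathlib's `PartrecToTM2` machine for
a partial recursive function with recursively inseparable fibres over `0` and `1`) by a fixed
finite list of premises: operators which push a letter on different stacks commute, a further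
operator commuting with all of them counts the steps, and every instruction becomes one equation.
If the machine stops in the accepting configuration the quasi-identity holds in every Lie ring;
if it stops in the rejecting configuration the finitely many configurations of the computation
give a finite nilpotent Lie ring of strictly triangular operators in which it fails.
-/

namespace Pool.Agent.Results.MP_b13462_lc.Undecidable

open Pool.Agent.H84.LieQ

/-- Let `p` be a prime and `C` a class of Lie rings which contains all finite nilpotent Lie rings
of exponent dividing `p`. Then there is no algorithm which decides whether a given quasi-identity
is true in all members of `C`. -/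
theorem result (p : ℕ) [Fact p.Prime] (C : (L : Type) → [LieRing L] → Prop)
    (hC : ∀ (L : Type) [LieRing L], Finite L → LieRing.IsNilpotent L → (∀ x : L, p • x = 0) →
      C L) :
    ¬ ComputablePred (fun φ : QuasiIdentity => ∀ (L : Type) [LieRing L], C L → φ.TrueIn L) := by
  intro h
  refine no_separation p _ h (fun φ hφ L _ _ => hφ L) ?_
  rintro φ ⟨L, iL, h1, h2, h3, h4⟩ hφ
  exact h4 (hφ L (hC L h1 h2 h3))

/-- The class of all finite Lie rings. -/
example : ¬ ComputablePred
    (fun φ : QuasiIdentity => ∀ (L : Type) [LieRing L], Finite L → φ.TrueIn L) :=
  have : Fact (Nat.Prime 2) := ⟨Nat.prime_two⟩
  result 2 (fun L _ => Finite L) (fun _ _ h _ _ => h)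

end Pool.Agent.Results.MP_b13462_lc.Undecidable
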